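import Pool.Agent.W242.TDF.Count

set_option autoImplicit false

/-!
# Exponents `P(π)` with `π ^ P(π)` and `π` algebraically dependent

`π ^ π` is the member `P = X`, `y = 1` of the family `π ^ (y P(π))`, the member `n = 1` of the
family `π ^ (π ^ n)` and the member `s = 0` of the family `π ^ (π / (1 - s π))`.
-/

namespace Pool.Agent.Results.MP_4c2ad3_nt.ExceptionalPolynomials

open Polynomial Module
open Pool.Agent.W242.GG Pool.Agent.W242.TDF

theorem cpow_pi (z : ℂ) : (Real.pi : ℂ) ^ z = Complex.exp (((Real.log Real.pi : ℝ) : ℂ) * z) := by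
  rw [Complex.cpow_def_of_ne_zero (by exact_mod_cast Real.pi_ne_zero), Complex.ofReal_log
    Real.pi_pos.le]

open Classical in
theorem result :
    -- spaces `W` of numbers `z` algebraic over `ℚ(π)` with `π ^ z` algebraic over `ℚ(π)`
    (∀ X W Y : Submodule ℚ ℂ, FiniteDimensional ℚ X → FiniteDimensional ℚ W →
      FiniteDimensional ℚ Y → (∀ x ∈ X, ∀ z ∈ W, x * z ∈ Y) →
      (∀ z ∈ W, ¬ AlgebraicIndependent ℚ ![(Real.pi : ℂ), z]) →
      (∀ z ∈ W, ¬ AlgebraicIndependent ℚ ![(Real.pi : ℂ), (Real.pi : ℂ) ^ z]) →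
        finrank ℚ X * finrank ℚ W ≤ finrank ℚ Y + 2 * (finrank ℚ X * (finrank ℚ X - 1))) ∧
    -- polynomials
    (∀ (y : ℂ) (n : ℕ), y ≠ 0 →
      (finrank ℚ (Submodule.span ℚ {P : ℚ[X] | P.natDegree ≤ n ∧ ¬ AlgebraicIndependent ℚ
        ![(Real.pi : ℂ), (Real.pi : ℂ) ^ (y * aeval (Real.pi : ℂ) P)]}) + 1) ^ 2 ≤ 8 * n + 4) ∧
    -- powers
    (∀ N : ℕ, (((Finset.Icc 1 N).filter (fun n : ℕ => ¬ AlgebraicIndependent ℚ
      ![(Real.pi : ℂ), ((Real.pi ^ (Real.pi ^ n) : ℝ) : ℂ)])).card + 2) ^ 2 ≤ 8 * N + 4) ∧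
    -- the one parameter family
    {s : ℚ | ¬ AlgebraicIndependent ℚ
      ![(Real.pi : ℂ), ((Real.pi ^ (Real.pi / (1 - s * Real.pi)) : ℝ) : ℂ)]}.encard ≤ 4 ∧
    -- algebraic values
    (∀ N : ℕ, (((Finset.Icc 1 N).filter (fun n : ℕ =>
      IsAlgebraic ℚ (Real.pi ^ (Real.pi ^ n)))).card : ℝ) ≤ 2 * Real.sqrt N + 1) ∧
    (∀ m n : ℕ, IsAlgebraic ℚ (Real.pi ^ (Real.pi ^ m)) →
      IsAlgebraic ℚ (Real.pi ^ (Real.pi ^ (m + 1))) → IsAlgebraic ℚ (Real.pi ^ (Real.pi ^ n)) →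
      IsAlgebraic ℚ (Real.pi ^ (Real.pi ^ (n + 1))) → m = n) := by
  refine ⟨?_, ?_, ?_, count_pipi_K, count_pipow_alg, ?_⟩
  · intro X W Y hX hW hY hXY hWt h
    refine Pool.Agent.W243.TD.prod2 piC_tr log_pi_ne X W Y (fun z hz => dep_alg piC_tr (hWt z hz))
      (fun z hz => ?_) hXY
    have h1 := h z hz
    rw [cpow_pi] at h1
    exact dep_alg piC_tr h1
  · intro y n hy
    refine span_sq2 piC_tr (mul_ne_zero log_pi_ne hy) n _ ?_
    rintro P ⟨h2, h3⟩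
    rw [cpow_pi, ← mul_assoc] at h3
    exact ⟨h2, dep_alg piC_tr h3⟩
  · intro N
    have h := count2 piC_tr log_pi_ne (by rw [exp_log_pi]; exact self_alg _) N
    simpa only [rpow_pow_exp Real.pi_pos] using h
  · intro m n h1 h2 h3 h4
    by_contra hmn
    exact consecutive hmn h1 h2 h3 h4

end Pool.Agent.Results.MP_4c2ad3_nt.ExceptionalPolynomials
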